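import Pool.Agent.V1148.Bor.G

set_option autoImplicit false
open Polynomial

/-!
# Borcea's `p`-variance inequality for polynomials with zeros on a circle about their centroid

For these polynomials `σ_1 = σ_∞` is the radius, so the inequality for all `p ≥ 1` is Sendov's
conjecture for the disc, for which the starting file `MP_f0bc87_an.AllNegativeExponents` is used.
-/

namespace Pool.Agent.Results.MP_af3a4a_an.CentredCircle

open Pool.Agent.V1148.Bor

/-- Borcea's inequality `h(F, F') ≤ σ_p(F)` holds for every polynomial of degree at least two whose
zeros are on one circle centred at their centroid and every `p ≥ 1`. -/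
theorem result (F : ℂ[X]) (hn : 2 ≤ F.natDegree) (hF : CentredCircle F) (p : ℝ) (hp : 1 ≤ p) :
    hdist F ≤ sigma p F :=
  (borcea_circle hn hF).trans (sigma_one_le (by omega) hp)

end Pool.Agent.Results.MP_af3a4a_an.CentredCircle
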