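import Pool.Agent.V1148.Bor.F

set_option autoImplicit false
open Polynomial

/-!
# Borcea's `p`-variance inequality for polynomials with collinear zeros

Let all zeros of `F`, of degree `n ≥ 2`, be on one line (for example `F` real-rooted). Then
`h(F, F') ≤ σ_1(F)`, hence `h(F, F') ≤ σ_p(F)` for all `p ≥ 1`.

Proof: for a zero `a` at distance `δ` from the nearest critical point the logarithmic derivative
does not vanish within distance `δ` of `a`, which gives two inequalities
`∑ 1 / (t_j - s) < 1 / s`, `∑ 1 / (-t_j - s) < 1 / s` (`0 < s < δ`) for the signed distances `t_j` of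
the other zeros from `a`, with `|t_j| ≥ δ`; these imply `|c| + ∑ |t_j - c| ≥ n δ` for all `c`.
-/

namespace Pool.Agent.Results.MP_af3a4a_an.CollinearZeros

open Pool.Agent.V1148.Bor

/-- Borcea's inequality `h(F, F') ≤ σ_p(F)` holds for every polynomial of degree at least two whose
zeros are collinear and every `p ≥ 1`. -/
theorem result (F : ℂ[X]) (hn : 2 ≤ F.natDegree) (hF : Collinear F) (p : ℝ) (hp : 1 ≤ p) :
    hdist F ≤ sigma p F :=
  (borcea_collinear hn hF).trans (sigma_one_le (by omega) hp)

end Pool.Agent.Results.MP_af3a4a_an.CollinearZeros
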