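import Pool.Agent.V1148.Bor.K

set_option autoImplicit false
open Polynomial

/-!
# Borcea's `p`-variance inequality for every polynomial and all large `p`

For every `F` of degree at least two there is a finite `p₀` such that `h(F, F') ≤ σ_p(F)` for all
`p ≥ p₀`. The proof uses the equality case of Sendov's conjecture (starting file
`MP_f0bc87_an.AllNegativeExponents`).
-/

namespace Pool.Agent.Results.MP_af3a4a_an.LargeExponents

open Pool.Agent.V1148.Bor

/-- For every polynomial `F` of degree at least two there is `p₀ ≥ 1` such that Borcea's inequality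
`h(F, F') ≤ σ_p(F)` holds for all `p ≥ p₀`. -/
theorem result (F : ℂ[X]) (hn : 2 ≤ F.natDegree) :
    ∃ p₀ : ℝ, 1 ≤ p₀ ∧ ∀ p : ℝ, p₀ ≤ p → hdist F ≤ sigma p F := by
  by_cases hF : IsPure F
  · exact ⟨1, le_rfl, fun p hp => (pure_eq hn hF hp).le⟩
  · obtain ⟨P, hP1, hP0, hP⟩ := exists_large hn hF 1
    exact ⟨P, hP1.le, fun p hp => hP.trans (sigma_mono (by omega) hP0 hp)⟩

end Pool.Agent.Results.MP_af3a4a_an.LargeExponents
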